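import Pool.Agent.Helper13.PS.St2

set_option autoImplicit false

noncomputable section

namespace Pool.Agent.Helper60.PS

open Finset Pool.Agent.Helper76.ND Pool.Agent.Helper13.PS

open Classical in
theorem hUD (hBn : StBn) : StUD := by
  intro H t hH ht hHt
  have htR : (1 : ℝ) ≤ t := by exact_mod_cast ht
  have ht0 : (0 : ℝ) < t := by linarith
  set e : ℝ := Real.exp (-(H ^ 2 / (t : ℝ) ^ 3)) with he
  have he0 : 0 < e := Real.exp_pos _
  have hsub : (Icc 1 (2 ^ t)).filter (fun N => EU H t N) ⊆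
      (Icc 1 ⌊(2 : ℝ) ^ t * Real.exp (-(H / t))⌋₊) ∪
        (Icc 1 (2 ^ t)).filter (fun N => ¬ Gd (H / t) (wd t N)) := by
    intro N hN
    rw [mem_filter, mem_Icc] at hN
    rw [mem_union, mem_Icc, mem_filter, mem_Icc]
    rcases hN.2 with h | h
    · left
      exact ⟨hN.1.1, Nat.le_floor h.le⟩
    · right
      exact ⟨hN.1, h⟩
  have h1 := (card_le_card hsub).trans (card_union_le _ _)
  have h2 : (((Icc 1 (2 ^ t)).filter (fun N => EU H t N)).card : ℝ) ≤
      ((Icc 1 ⌊(2 : ℝ) ^ t * Real.exp (-(H / t))⌋₊).card : ℝ) +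
        (((Icc 1 (2 ^ t)).filter (fun N => ¬ Gd (H / t) (wd t N))).card : ℝ) := by
    exact_mod_cast h1
  have h3 : ((Icc 1 ⌊(2 : ℝ) ^ t * Real.exp (-(H / t))⌋₊).card : ℝ) ≤ 2 ^ t * e := by
    rw [Nat.card_Icc, Nat.add_sub_cancel]
    refine (Nat.floor_le (by positivity)).trans ?_
    apply mul_le_mul_of_nonneg_left _ (by positivity)
    apply Real.exp_le_exp.2
    apply neg_le_neg
    rw [div_le_div_iff₀ (by positivity) ht0]
    have : H * (t : ℝ) ^ 3 - H ^ 2 * t = H * t * ((t : ℝ) ^ 2 - H) := by ring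
    have h0 : 0 ≤ H * t * ((t : ℝ) ^ 2 - H) :=
      mul_nonneg (mul_nonneg hH ht0.le) (by linarith)
    linarith
  have h4 : (((Icc 1 (2 ^ t)).filter (fun N => ¬ Gd (H / t) (wd t N))).card : ℝ) ≤
      4 * 2 ^ t * t * e := by
    have := hBn (2 ^ t) t (H / t) ht le_rfl (by positivity)
    push_cast at this
    refine this.trans ?_
    apply mul_le_mul_of_nonneg_left _ (by positivity)
    apply Real.exp_le_exp.2
    apply neg_le_neg
    have h5 : 2 * (H / (t : ℝ)) ^ 2 / t = 2 * (H ^ 2 / (t : ℝ) ^ 3) := by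
      field_simp
    rw [h5]
    have : 0 ≤ H ^ 2 / (t : ℝ) ^ 3 := by positivity
    linarith
  have h6 : (2 : ℝ) ^ t * e ≤ t * 2 ^ t * e := by
    have : 0 ≤ (2 : ℝ) ^ t * e := by positivity
    nlinarith
  calc (((Icc 1 (2 ^ t)).filter (fun N => EU H t N)).card : ℝ) ≤ 2 ^ t * e + 4 * 2 ^ t * t * e := by
        linarith
    _ ≤ 5 * t * 2 ^ t * e := by linarith

end Pool.Agent.Helper60.PS
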